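import Mathlib

open Filter Topology MeasureTheory
open scoped ENNReal NNReal MeasureTheory Classical

namespace Pool.Agent.Lib.MP035d7c

/-! ### balanced words -/

lemma exists_enc (j : ℕ) : ∃ enc : Fin (Nat.centralBinom j) → (Fin (2 * j) → ℤˣ),
    Function.Injective enc ∧ ∀ k, ∑ l, (((enc k l : ℤˣ) : ℤ) : ℝ) = 0 := by
  have hcard : Fintype.card {A : Finset (Fin (2 * j)) // A.card = j} = Nat.centralBinom j := by
    rw [Fintype.card_finset_len, Fintype.card_fin, Nat.centralBinom]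
  let e : {A : Finset (Fin (2 * j)) // A.card = j} ≃ Fin (Nat.centralBinom j) :=
    Fintype.equivFinOfCardEq hcard
  refine ⟨fun k l => if l ∈ (e.symm k).1 then 1 else -1, ?_, ?_⟩
  · intro k k' h
    apply e.symm.injective
    apply Subtype.ext
    ext l
    have := congrFun h l
    simp only at this
    by_cases h1 : l ∈ (e.symm k).1 <;> by_cases h2 : l ∈ (e.symm k').1
    · simp [h1, h2]
    · rw [if_pos h1, if_neg h2] at this
      exact absurd this (by decide)
    · rw [if_neg h1, if_pos h2] at this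
      exact absurd this (by decide)
    · simp [h1, h2]
  · intro k
    have hc := (e.symm k).2
    have h1 : ∀ l : Fin (2 * j), ((((if l ∈ (e.symm k).1 then 1 else -1 : ℤˣ)) : ℤ) : ℝ) =
        2 * (if l ∈ (e.symm k).1 then (1 : ℝ) else 0) - 1 := by
      intro l
      split_ifs
      · norm_num
      · norm_num
    simp only [h1]
    rw [Finset.sum_sub_distrib, ← Finset.mul_sum, Finset.sum_ite_mem]
    simp only [Finset.univ_inter, Finset.sum_const, hc, Finset.card_univ, Fintype.card_fin,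
      nsmul_eq_mul]
    push_cast
    ring

/-! ### convergence -/

lemma tendsto_of_blocks (a b : ℕ → ℝ) (ha : ∀ n, |a n| ≤ b n) (hb : Tendsto b atTop (𝓝 0))
    (q : ℕ) (hq : 0 < q) (T : ℝ)
    (h : Tendsto (fun K => ∑ n ∈ Finset.range (q * K), a n) atTop (𝓝 T)) :
    Tendsto (fun N => ∑ n ∈ Finset.range N, a n) atTop (𝓝 T) := by
  have hdiv : Tendsto (fun N : ℕ => N / q) atTop atTop :=
    Nat.tendsto_div_const_atTop hq.ne'
  have h1 : Tendsto (fun N => ∑ n ∈ Finset.range (q * (N / q)), a n) atTop (𝓝 T) :=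
    h.comp hdiv
  have hmul : ∀ l : ℕ, Tendsto (fun N : ℕ => q * (N / q) + l) atTop atTop := by
    intro l
    refine tendsto_atTop_mono (fun N => ?_) hdiv
    have : 1 * (N / q) ≤ q * (N / q) := Nat.mul_le_mul_right _ hq
    omega
  have h2 : Tendsto (fun N => ∑ l ∈ Finset.range q, b (q * (N / q) + l)) atTop (𝓝 0) := by
    have := tendsto_finsetSum (Finset.range q) (fun l _ => hb.comp (hmul l))
    simpa using this
  have hb0 : ∀ n, 0 ≤ b n := fun n => (abs_nonneg _).trans (ha n)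
  have h3 : Tendsto (fun N => ∑ l ∈ Finset.range (N % q), a (q * (N / q) + l)) atTop (𝓝 0) := by
    apply squeeze_zero_norm _ h2
    intro N
    rw [Real.norm_eq_abs]
    calc |∑ l ∈ Finset.range (N % q), a (q * (N / q) + l)|
        ≤ ∑ l ∈ Finset.range (N % q), |a (q * (N / q) + l)| := Finset.abs_sum_le_sum_abs _ _
      _ ≤ ∑ l ∈ Finset.range (N % q), b (q * (N / q) + l) :=
          Finset.sum_le_sum fun l _ => ha _
      _ ≤ ∑ l ∈ Finset.range q, b (q * (N / q) + l) :=
          Finset.sum_le_sum_of_subset_of_nonneg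
            (Finset.range_mono (Nat.mod_lt _ hq).le) fun l _ _ => hb0 _
  have h4 : (fun N => ∑ n ∈ Finset.range N, a n) = fun N =>
      ∑ n ∈ Finset.range (q * (N / q)), a n +
        ∑ l ∈ Finset.range (N % q), a (q * (N / q) + l) := by
    funext N
    conv_lhs => rw [← Nat.div_add_mod N q]
    rw [Finset.sum_range_add]
  rw [h4]
  simpa using h1.add h3

/-- interleaving of words `w i` of length `2 * j` with control signs `c i` -/
def mk (j : ℕ) (w : ℕ → Fin (2 * j) → ℤˣ) (c : ℕ → ℤˣ) (n : ℕ) : ℤˣ :=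
  if h : n % (2 * j + 1) < 2 * j then w (n / (2 * j + 1)) ⟨n % (2 * j + 1), h⟩
  else c (n / (2 * j + 1))

lemma mk_lt (j : ℕ) (w : ℕ → Fin (2 * j) → ℤˣ) (c : ℕ → ℤˣ) (i : ℕ) (l : Fin (2 * j)) :
    mk j w c ((2 * j + 1) * i + l) = w i l := by
  have h1 : ((2 * j + 1) * i + (l : ℕ)) % (2 * j + 1) = l := by
    rw [Nat.mul_add_mod]
    exact Nat.mod_eq_of_lt (by omega)
  have h2 : ((2 * j + 1) * i + (l : ℕ)) / (2 * j + 1) = i := by
    rw [Nat.mul_add_div (by omega), Nat.div_eq_of_lt (by omega)]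
    rfl
  unfold mk
  rw [dif_pos (by rw [h1]; exact l.2)]
  simp only [h1, h2]

lemma mk_ctrl (j : ℕ) (w : ℕ → Fin (2 * j) → ℤˣ) (c : ℕ → ℤˣ) (i : ℕ) :
    mk j w c ((2 * j + 1) * i + 2 * j) = c i := by
  have h1 : ((2 * j + 1) * i + 2 * j) % (2 * j + 1) = 2 * j := by
    rw [Nat.mul_add_mod]
    exact Nat.mod_eq_of_lt (by omega)
  have h2 : ((2 * j + 1) * i + 2 * j) / (2 * j + 1) = i := by
    rw [Nat.mul_add_div (by omega), Nat.div_eq_of_lt (by omega)]
    rfl
  unfold mk
  rw [dif_neg (by rw [h1]; omega)]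
  rw [h2]

lemma sum_mk (j : ℕ) (w : ℕ → Fin (2 * j) → ℤˣ) (c : ℕ → ℤˣ) (b : ℕ → ℝ) (K : ℕ) :
    ∑ n ∈ Finset.range ((2 * j + 1) * K), ((mk j w c n : ℤ) : ℝ) * b n =
      ∑ i ∈ Finset.range K, (∑ l : Fin (2 * j), ((w i l : ℤ) : ℝ) * b ((2 * j + 1) * i + l)) +
      ∑ i ∈ Finset.range K, ((c i : ℤ) : ℝ) * b ((2 * j + 1) * i + 2 * j) := by
  induction K with
  | zero => simp
  | succ K ih =>
    rw [Nat.mul_succ, Finset.sum_range_add, ih, Finset.sum_range_succ _ K,
      Finset.sum_range_succ _ K, Finset.sum_range_succ _ (2 * j), mk_ctrl]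
    rw [Finset.sum_range (fun x => ((mk j w c ((2 * j + 1) * K + x) : ℤ) : ℝ) *
      b ((2 * j + 1) * K + x))]
    simp only [mk_lt]
    ring

lemma summable_blocks (j : ℕ) (w : ℕ → Fin (2 * j) → ℤˣ) (hw : ∀ i, ∑ l, ((w i l : ℤ) : ℝ) = 0)
    (b : ℕ → ℝ) (hanti : Antitone b) (hb0 : ∀ n, 0 ≤ b n) :
    Summable (fun i => ∑ l : Fin (2 * j), ((w i l : ℤ) : ℝ) * b ((2 * j + 1) * i + l)) := by
  have habs : ∀ e : ℤˣ, |((e : ℤ) : ℝ)| = 1 := by
    intro e
    rcases Int.units_eq_one_or e with h | h <;> simp [h]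
  apply Summable.of_norm
  have hbd : ∀ i, ‖∑ l : Fin (2 * j), ((w i l : ℤ) : ℝ) * b ((2 * j + 1) * i + l)‖ ≤
      (2 * j) * (b ((2 * j + 1) * i) - b ((2 * j + 1) * (i + 1))) := by
    intro i
    have h1 : ∑ l : Fin (2 * j), ((w i l : ℤ) : ℝ) * b ((2 * j + 1) * i + l) =
        ∑ l : Fin (2 * j), ((w i l : ℤ) : ℝ) *
          (b ((2 * j + 1) * i + l) - b ((2 * j + 1) * i)) := by
      simp only [mul_sub, Finset.sum_sub_distrib]
      rw [← Finset.sum_mul, hw i]
      ring
    rw [h1, Real.norm_eq_abs]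
    calc |∑ l : Fin (2 * j), ((w i l : ℤ) : ℝ) *
          (b ((2 * j + 1) * i + l) - b ((2 * j + 1) * i))|
        ≤ ∑ l : Fin (2 * j), |((w i l : ℤ) : ℝ) *
          (b ((2 * j + 1) * i + l) - b ((2 * j + 1) * i))| := Finset.abs_sum_le_sum_abs _ _
      _ ≤ ∑ l : Fin (2 * j), (b ((2 * j + 1) * i) - b ((2 * j + 1) * (i + 1))) := by
          apply Finset.sum_le_sum
          intro l _
          rw [abs_mul, habs, one_mul, abs_sub_comm, abs_of_nonneg]
          · have : b ((2 * j + 1) * (i + 1)) ≤ b ((2 * j + 1) * i + l) := by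
              apply hanti
              rw [Nat.mul_succ]
              have := l.2
              omega
            linarith
          · have : b ((2 * j + 1) * i + l) ≤ b ((2 * j + 1) * i) := by
              apply hanti
              omega
            linarith
      _ = (2 * j) * (b ((2 * j + 1) * i) - b ((2 * j + 1) * (i + 1))) := by
          rw [Finset.sum_const, Finset.card_univ, Fintype.card_fin, nsmul_eq_mul]
          push_cast
          ring
  refine summable_of_sum_range_le (c := (2 * j) * b 0) (fun i => norm_nonneg _) ?_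
  intro N
  calc ∑ i ∈ Finset.range N, ‖∑ l : Fin (2 * j), ((w i l : ℤ) : ℝ) * b ((2 * j + 1) * i + l)‖
      ≤ ∑ i ∈ Finset.range N, (2 * j) * (b ((2 * j + 1) * i) - b ((2 * j + 1) * (i + 1))) :=
        Finset.sum_le_sum fun i _ => hbd i
    _ = (2 * j) * (b ((2 * j + 1) * 0) - b ((2 * j + 1) * N)) := by
        rw [← Finset.mul_sum, Finset.sum_range_sub' (fun i => b ((2 * j + 1) * i))]
    _ ≤ (2 * j) * b 0 := by
        have := hb0 ((2 * j + 1) * N)
        apply mul_le_mul_of_nonneg_left _ (by positivity)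
        simpa using this

end Pool.Agent.Lib.MP035d7c
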