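import Mathlib

open Filter Topology

namespace Pool.Agent.Lib.MP035d7c

noncomputable section

/-- greedy sign: `+1` on nonpositive numbers and `-1` on positive ones -/
def sg (x : ℝ) : ℤˣ := if x ≤ 0 then 1 else -1

lemma abs_step (x q : ℝ) : |x + (((sg x : ℤˣ) : ℤ) : ℝ) * q| = |(|x| - q)| := by
  unfold sg
  split_ifs with h
  · rw [abs_of_nonpos h]
    rw [← abs_neg]
    congr 1
    push_cast
    ring_nf
  · push Not at h
    rw [abs_of_pos h]
    push_cast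
    ring_nf

/-- decreasing part of the greedy error -/
lemma block_bound (P : ℕ → ℝ) (hP : ∀ k, 0 < P k) (hPa : Antitone P)
    (N L : ℕ) (x : ℕ → ℝ)
    (hx : ∀ j, j < L → x (j + 1) = x j + (((sg (x j) : ℤˣ) : ℤ) : ℝ) * P (N + j)) :
    ∀ j, j ≤ L → |x j| ≤ max (|x 0| - j * P (N + L)) (P N) := by
  intro j
  induction j with
  | zero => intro _; simp
  | succ j ih =>
    intro hj
    have hjL : j < L := hj
    have ih' := ih hjL.le
    rw [hx j hjL, abs_step]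
    have h1 : P (N + L) ≤ P (N + j) := hPa (by omega)
    have h2 : P (N + j) ≤ P N := hPa (by omega)
    rcases le_total (P (N + j)) |x j| with h | h
    · rw [abs_of_nonneg (by linarith)]
      rcases le_max_iff.1 ih' with h3 | h3
      · apply le_max_of_le_left
        push_cast
        linarith
      · apply le_max_of_le_right
        linarith [hP (N + j)]
    · rw [abs_of_nonpos (by linarith)]
      apply le_max_of_le_right
      linarith [abs_nonneg (x j)]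

lemma sum_pos_part_le (D q : ℝ) (hq : 0 < q) (n : ℕ) :
    ∑ j ∈ Finset.range n, max (D - ((j : ℝ) + 1) * q) 0 ≤ D ^ 2 / q := by
  have key : ∀ j : ℕ, max (D - ((j : ℝ) + 1) * q) 0 ≤
      (max (D - (j : ℝ) * q) 0) ^ 2 / q - (max (D - ((j : ℝ) + 1) * q) 0) ^ 2 / q := by
    intro j
    rw [← sub_div, le_div_iff₀ hq]
    rcases le_total (D - ((j : ℝ) + 1) * q) 0 with h | h
    · rw [max_eq_right h]
      have := sq_nonneg (max (D - (j : ℝ) * q) 0)
      nlinarith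
    · rw [max_eq_left h, max_eq_left (by nlinarith)]
      nlinarith
  have h2 : ∑ j ∈ Finset.range n, max (D - ((j : ℝ) + 1) * q) 0 ≤
      ∑ j ∈ Finset.range n, ((max (D - (j : ℝ) * q) 0) ^ 2 / q
        - (max (D - (((j + 1 : ℕ) : ℝ)) * q) 0) ^ 2 / q) := by
    apply Finset.sum_le_sum
    intro j _
    have := key j
    push_cast
    exact this
  refine h2.trans ?_
  rw [Finset.sum_range_sub' (fun j : ℕ => (max (D - (j : ℝ) * q) 0) ^ 2 / q)]
  have h3 : (max (D - ((0 : ℕ) : ℝ) * q) 0) ^ 2 ≤ D ^ 2 := by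
    have h4 : max (D - ((0 : ℕ) : ℝ) * q) 0 = max D 0 := by simp
    rw [h4]
    rcases le_total D 0 with h | h
    · rw [max_eq_right h]; nlinarith
    · rw [max_eq_left h]
  have h5 : 0 ≤ (max (D - (n : ℝ) * q) 0) ^ 2 / q := by positivity
  have h6 : (max (D - ((0 : ℕ) : ℝ) * q) 0) ^ 2 / q ≤ D ^ 2 / q := by gcongr
  linarith

/-- block estimate -/
lemma block_err (P W : ℕ → ℝ) (hP : ∀ k, 0 < P k) (hPa : Antitone P) (hWa : Antitone W)
    (N L : ℕ) (δ : ℝ) (hδ : ∀ k, N ≤ k → W k - W (k + 1) ≤ δ) (x : ℕ → ℝ)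
    (hx : ∀ j, j < L → x (j + 1) = x j + (((sg (x j) : ℤˣ) : ℤ) : ℝ) * P (N + j)) :
    ∑ j ∈ Finset.range L, (W (N + j) - W (N + j + 1)) * |x (j + 1)| ≤
      (W N - W (N + L)) * P N + δ * (|x 0| ^ 2 / P (N + L)) := by
  have hb := block_bound P hP hPa N L x hx
  have h1 : ∀ j ∈ Finset.range L, (W (N + j) - W (N + j + 1)) * |x (j + 1)| ≤
      (W (N + j) - W (N + j + 1)) * P N +
        δ * max (|x 0| - ((j : ℝ) + 1) * P (N + L)) 0 := by
    intro j hj
    have hj' : j < L := Finset.mem_range.1 hj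
    have hd0 : 0 ≤ W (N + j) - W (N + j + 1) := by
      have := hWa (show N + j ≤ N + j + 1 by omega)
      linarith
    have hdδ := hδ (N + j) (by omega)
    have h2 := hb (j + 1) hj'
    push_cast at h2
    have h3 : |x (j + 1)| ≤ P N + max (|x 0| - ((j : ℝ) + 1) * P (N + L)) 0 := by
      rcases le_max_iff.1 h2 with h | h
      · have := le_max_left (|x 0| - ((j : ℝ) + 1) * P (N + L)) 0
        linarith [hP N]
      · have := le_max_right (|x 0| - ((j : ℝ) + 1) * P (N + L)) 0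
        linarith
    have h4 : 0 ≤ max (|x 0| - ((j : ℝ) + 1) * P (N + L)) 0 := le_max_right _ _
    calc (W (N + j) - W (N + j + 1)) * |x (j + 1)|
        ≤ (W (N + j) - W (N + j + 1)) * (P N + max (|x 0| - ((j : ℝ) + 1) * P (N + L)) 0) := by
          gcongr
      _ = (W (N + j) - W (N + j + 1)) * P N +
          (W (N + j) - W (N + j + 1)) * max (|x 0| - ((j : ℝ) + 1) * P (N + L)) 0 := by ring
      _ ≤ _ := by gcongr
  refine (Finset.sum_le_sum h1).trans ?_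
  rw [Finset.sum_add_distrib, ← Finset.sum_mul, ← Finset.mul_sum]
  have h5 : ∑ j ∈ Finset.range L, (W (N + j) - W (N + j + 1)) = W N - W (N + L) := by
    have := Finset.sum_range_sub' (fun j => W (N + j)) L
    simpa [add_assoc] using this
  rw [h5]
  have hδ0 : 0 ≤ δ := by
    have h6 := hδ N le_rfl
    have h7 := hWa (show N ≤ N + 1 by omega)
    linarith
  have h8 := sum_pos_part_le |x 0| (P (N + L)) (hP _) L
  gcongr

lemma phase_one (Q : ℕ → ℝ) (hQ : ∀ k, 0 < Q k)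
    (hQ2 : ∀ k, Q k ≤ 2 * Q (k + 1)) (hQs : ¬ Summable Q) (v : ℕ → ℝ)
    (hv : ∀ k, v (k + 1) = v k + (((sg (v k) : ℤˣ) : ℤ) : ℝ) * Q k) :
    ∃ k₁, ∀ k, k₁ ≤ k → |v (k + 1)| ≤ Q k := by
  have hex : ∃ k, |v k| ≤ Q k := by
    by_contra hcon
    push Not at hcon
    apply hQs
    have h1 : ∀ n, ∑ i ∈ Finset.range n, Q i = |v 0| - |v n| := by
      intro n
      induction n with
      | zero => simp
      | succ n ih =>
        have h2 : |v (n + 1)| = |v n| - Q n := by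
          rw [hv n, abs_step]
          exact abs_of_nonneg (by linarith [hcon n])
        rw [Finset.sum_range_succ, ih, h2]
        ring
    apply summable_of_sum_range_le (c := |v 0|) (fun n => (hQ n).le)
    intro n
    rw [h1 n]
    linarith [abs_nonneg (v n)]
  obtain ⟨k₁, hk₁⟩ := hex
  refine ⟨k₁, ?_⟩
  intro k hk
  induction k, hk using Nat.le_induction with
  | base =>
    rw [hv, abs_step, abs_of_nonpos (by linarith)]
    linarith [abs_nonneg (v k₁)]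
  | succ k hk ih =>
    rw [hv (k + 1), abs_step]
    rcases le_total (Q (k + 1)) |v (k + 1)| with h | h
    · rw [abs_of_nonneg (by linarith)]
      linarith [hQ2 k]
    · rw [abs_of_nonpos (by linarith)]
      linarith [abs_nonneg (v (k + 1))]

/-- in the first phase the first coordinate stays bounded -/
lemma phase_one_bdd (P W : ℕ → ℝ) (hP : ∀ k, 0 < P k) (hW : ∀ k, 0 < W k) (hWa : Antitone W)
    (hQ2 : ∀ k, P k * W k ≤ 2 * (P (k + 1) * W (k + 1)))
    (hQs : ¬ Summable (fun k => P k * W k))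
    (hsum : Summable (fun k => P k * W k * (1 / W (k + 1) - 1 / W k)))
    (u v : ℕ → ℝ)
    (hu : ∀ k, u (k + 1) = u k + (((sg (v k) : ℤˣ) : ℤ) : ℝ) * P k)
    (hv : ∀ k, v (k + 1) = v k + (((sg (v k) : ℤˣ) : ℤ) : ℝ) * (P k * W k)) :
    ∃ (k₁ : ℕ) (Y : ℝ), 0 ≤ Y ∧ ∀ k, k₁ ≤ k → |v (k + 1)| ≤ P k * W k ∧
      |u k - v k / W k| ≤ Y := by
  obtain ⟨k₁, hk₁⟩ := phase_one (fun k => P k * W k) (fun k => mul_pos (hP k) (hW k)) hQ2 hQs v hv
  set y : ℕ → ℝ := fun k => u k - v k / W k with hy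
  have hinc : ∀ k, k₁ ≤ k → |y (k + 1) - y k| ≤ P k * W k * (1 / W (k + 1) - 1 / W k) := by
    intro k hk
    have h1 : y (k + 1) - y k = v (k + 1) * (1 / W k - 1 / W (k + 1)) := by
      have h2 : (((sg (v k) : ℤˣ) : ℤ) : ℝ) * P k = (v (k + 1) - v k) / W k := by
        rw [hv k]
        field_simp [(hW k).ne']
        ring
      simp only [hy]
      rw [hu k, h2]
      field_simp [(hW k).ne', (hW (k + 1)).ne']
      ring
    have h3 : 0 ≤ 1 / W (k + 1) - 1 / W k := by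
      have := one_div_le_one_div_of_le (hW (k + 1)) (hWa (show k ≤ k + 1 by omega))
      linarith
    rw [h1, abs_mul, abs_sub_comm (1 / W k), abs_of_nonneg h3]
    exact mul_le_mul_of_nonneg_right (hk₁ k hk) h3
  have hnn : ∀ k, 0 ≤ P k * W k * (1 / W (k + 1) - 1 / W k) := by
    intro k
    have h3 : 0 ≤ 1 / W (k + 1) - 1 / W k := by
      have := one_div_le_one_div_of_le (hW (k + 1)) (hWa (show k ≤ k + 1 by omega))
      linarith
    exact mul_nonneg (mul_nonneg (hP k).le (hW k).le) h3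
  refine ⟨k₁, |y k₁| + ∑' k, P k * W k * (1 / W (k + 1) - 1 / W k), ?_, ?_⟩
  · have h9 : 0 ≤ ∑' k, P k * W k * (1 / W (k + 1) - 1 / W k) := tsum_nonneg hnn
    positivity
  intro k hk
  refine ⟨hk₁ k hk, ?_⟩
  have h4 : ∀ n, |y (k₁ + n)| ≤ |y k₁| +
      ∑ i ∈ Finset.range n, P (k₁ + i) * W (k₁ + i) * (1 / W (k₁ + i + 1) - 1 / W (k₁ + i)) := by
    intro n
    induction n with
    | zero => simp
    | succ n ih =>
      rw [Finset.sum_range_succ]
      have h5 := hinc (k₁ + n) (by omega)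
      have h6 : |y (k₁ + (n + 1))| ≤ |y (k₁ + n)| + |y (k₁ + n + 1) - y (k₁ + n)| := by
        have := abs_add_le (y (k₁ + n)) (y (k₁ + n + 1) - y (k₁ + n))
        rw [add_sub_cancel] at this
        exact this
      linarith
  have h7 := h4 (k - k₁)
  rw [show k₁ + (k - k₁) = k by omega] at h7
  refine h7.trans ?_
  gcongr
  have h8 : ∑ i ∈ Finset.range (k - k₁),
      P (k₁ + i) * W (k₁ + i) * (1 / W (k₁ + i + 1) - 1 / W (k₁ + i)) =
      ∑ i ∈ Finset.Ico k₁ k, P i * W i * (1 / W (i + 1) - 1 / W i) := by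
    rw [Finset.sum_Ico_eq_sum_range]
  rw [h8]
  exact hsum.sum_le_tsum _ (fun i _ => hnn i)

/-- target used at time `k` in the second phase -/
def newT (W : ℕ → ℝ) (k : ℕ) (s : ℝ × ℝ × ℝ) : ℝ :=
  if k = 2 ^ (Nat.log 2 k) then -(s.2.1 - W k * s.1) / (W k - W (2 * k)) else s.2.2

/-- states of the second phase, started at time `K` -/
def st (P W : ℕ → ℝ) (K : ℕ) (uK vK : ℝ) : ℕ → ℝ × ℝ × ℝ
  | 0 => (uK, vK, 0)
  | (i + 1) =>
    let s := st P W K uK vK i
    let T := newT W (K + i) s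
    (s.1 + (((sg (s.1 - T) : ℤˣ) : ℤ) : ℝ) * P (K + i),
      s.2.1 + (((sg (s.1 - T) : ℤˣ) : ℤ) : ℝ) * (P (K + i) * W (K + i)), T)

lemma phase_two (P W δ : ℕ → ℝ) (C : ℝ) (hC : 0 ≤ C) (hP : ∀ k, 0 < P k) (hPa : Antitone P)
    (hP0 : Tendsto P atTop (𝓝 0)) (hW : ∀ k, 0 < W k) (hWa : StrictAnti W)
    (hδ : ∀ m k, 2 ^ m ≤ k → W k - W (k + 1) ≤ δ m)
    (hR1 : ∀ m, W (2 ^ m) - W (2 ^ (m + 1)) ≤ C * (W (2 ^ (m + 1)) - W (2 ^ (m + 2))))
    (hR2 : Tendsto (fun m => δ m / ((W (2 ^ (m + 1)) - W (2 ^ (m + 2))) * P (2 ^ (m + 1))))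
      atTop (𝓝 0))
    (m₀ : ℕ) (uK vK M : ℝ) (hM : 0 ≤ M)
    (hT0 : |vK - W (2 ^ m₀) * uK| ≤ M * (W (2 ^ m₀) - W (2 ^ (m₀ + 1))))
    (hu0 : |uK| ≤ M + P 0)
    (hm1 : ∀ m, m₀ ≤ m → C * P (2 ^ m) + (2 * M + P 0) ^ 2 *
      (δ m / ((W (2 ^ (m + 1)) - W (2 ^ (m + 2))) * P (2 ^ (m + 1)))) ≤ M)
    (hm2 : ∀ m, m₀ ≤ m → 2 * M + P 0 ≤ 2 ^ m * P (2 ^ (m + 1))) :
    ∃ ε : ℕ → ℤˣ, Tendsto (fun n => uK + ∑ i ∈ Finset.range n, ((ε i : ℤ) : ℝ) * P (2 ^ m₀ + i))
        atTop (𝓝 0) ∧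
      Tendsto (fun n => vK + ∑ i ∈ Finset.range n, ((ε i : ℤ) : ℝ) *
        (P (2 ^ m₀ + i) * W (2 ^ m₀ + i))) atTop (𝓝 0) := by
  set K := 2 ^ m₀ with hK
  set s := st P W K uK vK with hs
  set U : ℕ → ℝ := fun i => (s i).1 with hU
  set V : ℕ → ℝ := fun i => (s i).2.1 with hV
  set τ : ℕ → ℝ := fun i => newT W (K + i) (s i) with hτ
  set ε : ℕ → ℤˣ := fun i => sg (U i - τ i) with hε
  have hUs : ∀ i, U (i + 1) = U i + ((ε i : ℤ) : ℝ) * P (K + i) := fun i => rfl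
  have hVs : ∀ i, V (i + 1) = V i + ((ε i : ℤ) : ℝ) * (P (K + i) * W (K + i)) := fun i => rfl
  have hTs : ∀ i, (s (i + 1)).2.2 = τ i := fun i => rfl
  have hU0 : U 0 = uK := rfl
  have hV0 : V 0 = vK := rfl
  have hUsum : ∀ n, uK + ∑ i ∈ Finset.range n, ((ε i : ℤ) : ℝ) * P (K + i) = U n := by
    intro n
    induction n with
    | zero => simp [hU0]
    | succ n ih => rw [Finset.sum_range_succ, ← add_assoc, ih, hUs]
  have hVsum : ∀ n, vK + ∑ i ∈ Finset.range n, ((ε i : ℤ) : ℝ) *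
      (P (K + i) * W (K + i)) = V n := by
    intro n
    induction n with
    | zero => simp [hV0]
    | succ n ih => rw [Finset.sum_range_succ, ← add_assoc, ih, hVs]
  have hKle : ∀ m, m₀ ≤ m → K ≤ 2 ^ m := fun m hm => Nat.pow_le_pow_right (by norm_num) hm
  -- the target is constant on blocks
  have hτblock : ∀ m, m₀ ≤ m → ∀ j, j < 2 ^ m → τ (2 ^ m - K + j) = τ (2 ^ m - K) := by
    intro m hm j
    induction j with
    | zero => intro _; rfl
    | succ j ih =>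
      intro hj
      rw [← ih (by omega)]
      have hk := hKle m hm
      have h1 : K + (2 ^ m - K + (j + 1)) = 2 ^ m + (j + 1) := by omega
      have h2 : Nat.log 2 (2 ^ m + (j + 1)) = m := by
        rw [Nat.log_eq_iff (Or.inr ⟨by norm_num, by omega⟩)]
        constructor
        · omega
        · rw [pow_succ]; omega
      have h3 : τ (2 ^ m - K + (j + 1)) = (s (2 ^ m - K + (j + 1))).2.2 := by
        simp only [hτ, newT]
        rw [h1, h2, if_neg (by omega)]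
      rw [h3]
      exact hTs (2 ^ m - K + j)
  have hτstart : ∀ m, m₀ ≤ m → τ (2 ^ m - K) =
      -(V (2 ^ m - K) - W (2 ^ m) * U (2 ^ m - K)) / (W (2 ^ m) - W (2 ^ (m + 1))) := by
    intro m hm
    have hk := hKle m hm
    have h1 : K + (2 ^ m - K) = 2 ^ m := by omega
    simp only [hτ, newT]
    rw [h1, Nat.log_pow (by norm_num), if_pos rfl]
    simp only [hU, hV]
    rw [pow_succ, mul_comm 2 (2 ^ m)]
  -- the tracking error on a block
  have hxrec : ∀ m, m₀ ≤ m → ∀ j, j < 2 ^ m →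
      (U (2 ^ m - K + (j + 1)) - τ (2 ^ m - K)) = (U (2 ^ m - K + j) - τ (2 ^ m - K)) +
        (((sg (U (2 ^ m - K + j) - τ (2 ^ m - K)) : ℤˣ) : ℤ) : ℝ) * P (2 ^ m + j) := by
    intro m hm j hj
    have hk := hKle m hm
    have h1 := hUs (2 ^ m - K + j)
    have h2 : ε (2 ^ m - K + j) = sg (U (2 ^ m - K + j) - τ (2 ^ m - K)) := by
      simp only [hε]
      rw [hτblock m hm j hj]
    rw [h2, show K + (2 ^ m - K + j) = 2 ^ m + j by omega] at h1
    rw [show 2 ^ m - K + (j + 1) = 2 ^ m - K + j + 1 by omega, h1]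
    ring
  have hbb : ∀ m, m₀ ≤ m → ∀ j, j ≤ 2 ^ m → |U (2 ^ m - K + j) - τ (2 ^ m - K)| ≤
      max (|U (2 ^ m - K) - τ (2 ^ m - K)| - j * P (2 ^ (m + 1))) (P (2 ^ m)) := by
    intro m hm j hj
    have := block_bound P hP hPa (2 ^ m) (2 ^ m)
      (fun j => U (2 ^ m - K + j) - τ (2 ^ m - K)) (hxrec m hm) j hj
    rw [show 2 ^ m + 2 ^ m = 2 ^ (m + 1) by rw [pow_succ]; ring] at this
    simpa using this
  have hWd : ∀ m, 0 < W (2 ^ m) - W (2 ^ (m + 1)) := by
    intro m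
    have := hWa (Nat.pow_lt_pow_right (show 1 < 2 by norm_num) (show m < m + 1 by omega))
    linarith
  set Z : ℕ → ℝ := fun i => V i - W (K + i) * U i with hZ
  have hZs : ∀ i, Z (i + 1) = Z i + (W (K + i) - W (K + i + 1)) * U (i + 1) := by
    intro i
    simp only [hZ]
    rw [hVs i, hUs i, show K + (i + 1) = K + i + 1 by omega]
    ring
  have hZsum : ∀ i n, Z (i + n) = Z i +
      ∑ j ∈ Finset.range n, (W (K + i + j) - W (K + i + j + 1)) * U (i + j + 1) := by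
    intro i n
    induction n with
    | zero => simp
    | succ n ih =>
      rw [Finset.sum_range_succ, ← add_assoc, ← add_assoc, hZs (i + n), ih,
        show K + (i + n) = K + i + n by omega]
  have hZend : ∀ m, m₀ ≤ m → |Z (2 ^ (m + 1) - K)| ≤
      (W (2 ^ m) - W (2 ^ (m + 1))) * P (2 ^ m) +
        δ m * (|U (2 ^ m - K) - τ (2 ^ m - K)| ^ 2 / P (2 ^ (m + 1))) := by
    intro m hm
    have hk := hKle m hm
    have h1 := hZsum (2 ^ m - K) (2 ^ m)
    have h2 : 2 ^ m - K + 2 ^ m = 2 ^ (m + 1) - K := by rw [pow_succ]; omega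
    have h3 : K + (2 ^ m - K) = 2 ^ m := by omega
    rw [h2, h3] at h1
    have h4 : ∑ j ∈ Finset.range (2 ^ m), (W (2 ^ m + j) - W (2 ^ m + j + 1)) *
        U (2 ^ m - K + j + 1) =
        ∑ j ∈ Finset.range (2 ^ m), (W (2 ^ m + j) - W (2 ^ m + j + 1)) *
          (U (2 ^ m - K + j + 1) - τ (2 ^ m - K)) +
        (W (2 ^ m) - W (2 ^ (m + 1))) * τ (2 ^ m - K) := by
      have h5 : (W (2 ^ m) - W (2 ^ (m + 1))) =
          ∑ j ∈ Finset.range (2 ^ m), (W (2 ^ m + j) - W (2 ^ m + j + 1)) := by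
        have := Finset.sum_range_sub' (fun j => W (2 ^ m + j)) (2 ^ m)
        rw [show 2 ^ (m + 1) = 2 ^ m + 2 ^ m by rw [pow_succ]; ring]
        simpa [add_assoc] using this.symm
      rw [h5, Finset.sum_mul, ← Finset.sum_add_distrib]
      apply Finset.sum_congr rfl
      intro j _
      ring
    have h6 : Z (2 ^ m - K) + (W (2 ^ m) - W (2 ^ (m + 1))) * τ (2 ^ m - K) = 0 := by
      rw [hτstart m hm]
      simp only [hZ]
      rw [h3]
      field_simp [(hWd m).ne']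
      ring
    have h7 : Z (2 ^ (m + 1) - K) = ∑ j ∈ Finset.range (2 ^ m),
        (W (2 ^ m + j) - W (2 ^ m + j + 1)) * (U (2 ^ m - K + j + 1) - τ (2 ^ m - K)) := by
      rw [h1, h4]
      linarith
    rw [h7]
    refine (Finset.abs_sum_le_sum_abs _ _).trans ?_
    have h8 := block_err P W hP hPa hWa.antitone (2 ^ m) (2 ^ m) (δ m) (fun k hk => hδ m k hk)
      (fun j => U (2 ^ m - K + j) - τ (2 ^ m - K)) (hxrec m hm)
    rw [show 2 ^ m + 2 ^ m = 2 ^ (m + 1) by rw [pow_succ]; ring] at h8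
    refine le_trans (le_of_eq ?_) (h8.trans (le_of_eq ?_))
    · apply Finset.sum_congr rfl
      intro j _
      rw [abs_mul, abs_of_nonneg]
      · rfl
      · have := hWa.antitone (show 2 ^ m + j ≤ 2 ^ m + j + 1 by omega)
        linarith
    · simp
  set D : ℝ := 2 * M + P 0 with hD
  set θ : ℕ → ℝ := fun m => C * P (2 ^ m) + D ^ 2 *
      (δ m / ((W (2 ^ (m + 1)) - W (2 ^ (m + 2))) * P (2 ^ (m + 1)))) with hθ
  have hD0 : 0 ≤ D := by have := (hP 0).le; positivity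
  have hδ0 : ∀ m, 0 ≤ δ m := by
    intro m
    have h1 := hδ m (2 ^ m) le_rfl
    have h2 := hWa.antitone (show 2 ^ m ≤ 2 ^ m + 1 by omega)
    linarith
  -- next target from the current tracking error
  have hnext : ∀ m, m₀ ≤ m → |U (2 ^ m - K) - τ (2 ^ m - K)| ≤ D →
      |τ (2 ^ (m + 1) - K)| ≤ θ m := by
    intro m hm hd
    rw [hτstart (m + 1) (by omega)]
    have hk := hKle (m + 1) (by omega)
    have h1 : V (2 ^ (m + 1) - K) - W (2 ^ (m + 1)) * U (2 ^ (m + 1) - K) =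
        Z (2 ^ (m + 1) - K) := by
      simp only [hZ]
      rw [show K + (2 ^ (m + 1) - K) = 2 ^ (m + 1) by omega]
    rw [h1, abs_div, abs_neg, abs_of_pos (hWd (m + 1)), div_le_iff₀ (hWd (m + 1))]
    refine (hZend m hm).trans ?_
    simp only [hθ]
    have h2 : |U (2 ^ m - K) - τ (2 ^ m - K)| ^ 2 ≤ D ^ 2 := by gcongr
    have h3 := hP (2 ^ (m + 1))
    have h4 := hWd (m + 1)
    have h5 : δ m * (|U (2 ^ m - K) - τ (2 ^ m - K)| ^ 2 / P (2 ^ (m + 1))) ≤
        δ m * (D ^ 2 / P (2 ^ (m + 1))) := by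
      have := hδ0 m
      gcongr
    have h6 : (W (2 ^ m) - W (2 ^ (m + 1))) * P (2 ^ m) ≤
        C * (W (2 ^ (m + 1)) - W (2 ^ (m + 2))) * P (2 ^ m) := by
      have := hP (2 ^ m)
      have := hR1 m
      gcongr
    refine (add_le_add h6 h5).trans (le_of_eq ?_)
    have h7 : W (2 ^ (m + 1)) - W (2 ^ (m + 1 + 1)) ≠ 0 := h4.ne'
    have h8 : m + 1 + 1 = m + 2 := rfl
    rw [h8] at h7 ⊢
    field_simp
  have hunext : ∀ m, m₀ ≤ m → |U (2 ^ m - K) - τ (2 ^ m - K)| ≤ D →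
      |U (2 ^ (m + 1) - K) - τ (2 ^ m - K)| ≤ P (2 ^ m) := by
    intro m hm hd
    have hk := hKle m hm
    have h1 := hbb m hm (2 ^ m) le_rfl
    have h2 : 2 ^ m - K + 2 ^ m = 2 ^ (m + 1) - K := by rw [pow_succ]; omega
    rw [h2] at h1
    refine h1.trans (max_le ?_ le_rfl)
    have h3 := hm2 m hm
    push_cast
    linarith [hP (2 ^ m)]
  have hinv : ∀ m, m₀ ≤ m → |τ (2 ^ m - K)| ≤ M ∧ |U (2 ^ m - K)| ≤ M + P 0 := by
    intro m hm
    induction m, hm using Nat.le_induction with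
    | base =>
      constructor
      · rw [hτstart m₀ le_rfl]
        have h1 : 2 ^ m₀ - K = 0 := by omega
        rw [h1, hU0, hV0, abs_div, abs_neg, abs_of_pos (hWd m₀), div_le_iff₀ (hWd m₀)]
        exact hT0
      · have h1 : 2 ^ m₀ - K = 0 := by omega
        rw [h1, hU0]
        exact hu0
    | succ m hm ih =>
      have hd : |U (2 ^ m - K) - τ (2 ^ m - K)| ≤ D := by
        have := abs_sub (U (2 ^ m - K)) (τ (2 ^ m - K))
        simp only [hD]
        linarith [ih.1, ih.2]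
      constructor
      · exact (hnext m hm hd).trans (hm1 m hm)
      · have h1 := hunext m hm hd
        have h2 := abs_sub_abs_le_abs_sub (U (2 ^ (m + 1) - K)) (τ (2 ^ m - K))
        have h3 : P (2 ^ m) ≤ P 0 := hPa (Nat.zero_le _)
        linarith [ih.1]
  have hd : ∀ m, m₀ ≤ m → |U (2 ^ m - K) - τ (2 ^ m - K)| ≤ D := by
    intro m hm
    have := abs_sub (U (2 ^ m - K)) (τ (2 ^ m - K))
    simp only [hD]
    linarith [(hinv m hm).1, (hinv m hm).2]
  -- limits along blocks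
  have h2pow : Tendsto (fun m : ℕ => 2 ^ m) atTop atTop :=
    tendsto_pow_atTop_atTop_of_one_lt (by norm_num)
  have hPlim : Tendsto (fun m : ℕ => P (2 ^ m)) atTop (𝓝 0) := hP0.comp h2pow
  have hθlim : Tendsto θ atTop (𝓝 0) := by
    have h1 := (hPlim.const_mul C).add (hR2.const_mul (D ^ 2))
    simpa using h1
  have hτlim : Tendsto (fun m => |τ (2 ^ m - K)|) atTop (𝓝 0) := by
    rw [← tendsto_add_atTop_iff_nat 1]
    refine squeeze_zero' (Eventually.of_forall fun m => abs_nonneg _) ?_ hθlim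
    filter_upwards [eventually_ge_atTop m₀] with m hm
    exact hnext m hm (hd m hm)
  have hulim : Tendsto (fun m => |U (2 ^ m - K)|) atTop (𝓝 0) := by
    rw [← tendsto_add_atTop_iff_nat 1]
    have h1 : Tendsto (fun m => |τ (2 ^ m - K)| + P (2 ^ m)) atTop (𝓝 0) := by
      simpa using hτlim.add hPlim
    refine squeeze_zero' (Eventually.of_forall fun m => abs_nonneg _) ?_ h1
    filter_upwards [eventually_ge_atTop m₀] with m hm
    have h1 := hunext m hm (hd m hm)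
    have h2 := abs_sub_abs_le_abs_sub (U (2 ^ (m + 1) - K)) (τ (2 ^ m - K))
    linarith
  set g : ℕ → ℝ := fun m => |U (2 ^ m - K)| + 2 * |τ (2 ^ m - K)| + P (2 ^ m) with hg
  have hglim : Tendsto g atTop (𝓝 0) := by
    have := (hulim.add (hτlim.const_mul 2)).add hPlim
    simpa using this
  have hUg : ∀ m, m₀ ≤ m → ∀ j, j ≤ 2 ^ m → |U (2 ^ m - K + j)| ≤ g m := by
    intro m hm j hj
    have h1 := hbb m hm j hj
    have h2 : max (|U (2 ^ m - K) - τ (2 ^ m - K)| - j * P (2 ^ (m + 1))) (P (2 ^ m)) ≤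
        |U (2 ^ m - K) - τ (2 ^ m - K)| + P (2 ^ m) := by
      apply max_le
      · have := hP (2 ^ m)
        have : 0 ≤ (j : ℝ) * P (2 ^ (m + 1)) := mul_nonneg (Nat.cast_nonneg j) (hP _).le
        linarith
      · have := abs_nonneg (U (2 ^ m - K) - τ (2 ^ m - K))
        linarith
    have h3 := abs_sub (U (2 ^ m - K)) (τ (2 ^ m - K))
    have h4 := abs_sub_abs_le_abs_sub (U (2 ^ m - K + j)) (τ (2 ^ m - K))
    simp only [hg]
    linarith
  have hVg : ∀ m, m₀ ≤ m → ∀ j, j ≤ 2 ^ m → |V (2 ^ m - K + j)| ≤ 3 * W 0 * g m := by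
    intro m hm j hj
    have hk := hKle m hm
    have h3 : K + (2 ^ m - K) = 2 ^ m := by omega
    have hg0 : 0 ≤ g m := by
      have := hP (2 ^ m)
      positivity
    have hW0 : ∀ k, W k ≤ W 0 := fun k => hWa.antitone (Nat.zero_le k)
    have h1 := hZsum (2 ^ m - K) j
    rw [h3] at h1
    have h5 : Z (2 ^ m - K) = -((W (2 ^ m) - W (2 ^ (m + 1))) * τ (2 ^ m - K)) := by
      rw [hτstart m hm]
      simp only [hZ]
      rw [h3]
      field_simp [(hWd m).ne']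
    have h6 : |Z (2 ^ m - K)| ≤ W 0 * g m := by
      rw [h5, abs_neg, abs_mul, abs_of_pos (hWd m)]
      have h7 : W (2 ^ m) - W (2 ^ (m + 1)) ≤ W 0 := by
        linarith [hW0 (2 ^ m), hW (2 ^ (m + 1))]
      have h8 : |τ (2 ^ m - K)| ≤ g m := by
        simp only [hg]
        linarith [abs_nonneg (U (2 ^ m - K)), abs_nonneg (τ (2 ^ m - K)), hP (2 ^ m)]
      have := hWd m
      have := (hW 0).le
      gcongr
    have h9 : |∑ i ∈ Finset.range j, (W (2 ^ m + i) - W (2 ^ m + i + 1)) *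
        U (2 ^ m - K + i + 1)| ≤ W 0 * g m := by
      refine (Finset.abs_sum_le_sum_abs _ _).trans ?_
      have h10 : ∀ i ∈ Finset.range j, |(W (2 ^ m + i) - W (2 ^ m + i + 1)) *
          U (2 ^ m - K + i + 1)| ≤ (W (2 ^ m + i) - W (2 ^ m + i + 1)) * g m := by
        intro i hi
        have hi' : i < j := Finset.mem_range.1 hi
        have h11 : 0 ≤ W (2 ^ m + i) - W (2 ^ m + i + 1) := by
          have := hWa.antitone (show 2 ^ m + i ≤ 2 ^ m + i + 1 by omega)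
          linarith
        rw [abs_mul, abs_of_nonneg h11]
        have := hUg m hm (i + 1) (by omega)
        rw [← add_assoc] at this
        gcongr
      refine (Finset.sum_le_sum h10).trans ?_
      rw [← Finset.sum_mul]
      have h12 : ∑ i ∈ Finset.range j, (W (2 ^ m + i) - W (2 ^ m + i + 1)) =
          W (2 ^ m) - W (2 ^ m + j) := by
        have := Finset.sum_range_sub' (fun i => W (2 ^ m + i)) j
        simpa [add_assoc] using this
      rw [h12]
      have : W (2 ^ m) - W (2 ^ m + j) ≤ W 0 := by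
        linarith [hW0 (2 ^ m), hW (2 ^ m + j)]
      gcongr
    have h13 : V (2 ^ m - K + j) = Z (2 ^ m - K + j) + W (K + (2 ^ m - K + j)) *
        U (2 ^ m - K + j) := by
      simp only [hZ]
      ring
    have h14 : |W (K + (2 ^ m - K + j)) * U (2 ^ m - K + j)| ≤ W 0 * g m := by
      rw [abs_mul, abs_of_pos (hW _)]
      have := hUg m hm j hj
      have := hW0 (K + (2 ^ m - K + j))
      have := hW 0
      gcongr
    rw [h13, h1]
    calc |Z (2 ^ m - K) + ∑ i ∈ Finset.range j, (W (2 ^ m + i) - W (2 ^ m + i + 1)) *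
        U (2 ^ m - K + i + 1) + W (K + (2 ^ m - K + j)) * U (2 ^ m - K + j)|
        ≤ |Z (2 ^ m - K)| + |∑ i ∈ Finset.range j, (W (2 ^ m + i) - W (2 ^ m + i + 1)) *
        U (2 ^ m - K + i + 1)| + |W (K + (2 ^ m - K + j)) * U (2 ^ m - K + j)| :=
          abs_add_three _ _ _
      _ ≤ 3 * W 0 * g m := by linarith
  have hlog : Tendsto (fun n : ℕ => Nat.log 2 (K + n)) atTop atTop := by
    refine tendsto_atTop_atTop.2 fun b => ⟨2 ^ b, fun a ha => ?_⟩
    exact Nat.le_log_of_pow_le (by norm_num) (ha.trans (Nat.le_add_left _ _))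
  have hidx : ∀ n, m₀ ≤ Nat.log 2 (K + n) ∧ ∃ j, j ≤ 2 ^ (Nat.log 2 (K + n)) ∧
      n = 2 ^ (Nat.log 2 (K + n)) - K + j := by
    intro n
    have h1 : m₀ ≤ Nat.log 2 (K + n) := Nat.le_log_of_pow_le (by norm_num) (by omega)
    have h2 := Nat.pow_log_le_self 2 (show K + n ≠ 0 by positivity)
    have h3 := Nat.lt_pow_succ_log_self (show 1 < 2 by norm_num) (K + n)
    have h4 := hKle _ h1
    rw [Nat.succ_eq_add_one, pow_succ] at h3
    exact ⟨h1, n - (2 ^ (Nat.log 2 (K + n)) - K), by omega, by omega⟩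
  refine ⟨ε, ?_, ?_⟩
  · simp_rw [hUsum]
    rw [tendsto_zero_iff_abs_tendsto_zero]
    refine squeeze_zero' (Eventually.of_forall fun m => abs_nonneg _)
      (Eventually.of_forall fun n => ?_) (hglim.comp hlog)
    obtain ⟨h1, j, hj, hn⟩ := hidx n
    simp only [Function.comp]
    conv_lhs => rw [hn]
    exact hUg _ h1 j hj
  · simp_rw [hVsum]
    rw [tendsto_zero_iff_abs_tendsto_zero]
    have h5 : Tendsto (fun m => 3 * W 0 * g m) atTop (𝓝 0) := by
      simpa using hglim.const_mul (3 * W 0)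
    refine squeeze_zero' (Eventually.of_forall fun m => abs_nonneg _)
      (Eventually.of_forall fun n => ?_) (h5.comp hlog)
    obtain ⟨h1, j, hj, hn⟩ := hidx n
    simp only [Function.comp]
    conv_lhs => rw [hn]
    exact hVg _ h1 j hj

/-- the two-phase construction -/
lemma two_phase (P W δ : ℕ → ℝ) (C c : ℝ) (hC : 0 ≤ C) (hc : 0 < c) (hP : ∀ k, 0 < P k)
    (hPa : Antitone P)
    (hP0 : Tendsto P atTop (𝓝 0)) (hW : ∀ k, 0 < W k) (hWa : StrictAnti W)
    (hQ2 : ∀ k, P k * W k ≤ 2 * (P (k + 1) * W (k + 1)))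
    (hQs : ¬ Summable (fun k => P k * W k))
    (hsum : Summable (fun k => P k * W k * (1 / W (k + 1) - 1 / W k)))
    (hcW : ∀ m, c * W (2 ^ m) ≤ W (2 ^ m) - W (2 ^ (m + 1)))
    (hδ : ∀ m k, 2 ^ m ≤ k → W k - W (k + 1) ≤ δ m)
    (hR1 : ∀ m, W (2 ^ m) - W (2 ^ (m + 1)) ≤ C * (W (2 ^ (m + 1)) - W (2 ^ (m + 2))))
    (hR2 : Tendsto (fun m => δ m / ((W (2 ^ (m + 1)) - W (2 ^ (m + 2))) * P (2 ^ (m + 1))))
      atTop (𝓝 0))
    (hR3 : Tendsto (fun m : ℕ => (2 : ℝ) ^ m * P (2 ^ (m + 1))) atTop atTop)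
    (u₀ v₀ : ℝ) :
    ∃ ε : ℕ → ℤˣ, Tendsto (fun n => u₀ + ∑ i ∈ Finset.range n, ((ε i : ℤ) : ℝ) * P i)
        atTop (𝓝 0) ∧
      Tendsto (fun n => v₀ + ∑ i ∈ Finset.range n, ((ε i : ℤ) : ℝ) *
        (P i * W i)) atTop (𝓝 0) := by
  -- the first phase
  let run : ℕ → ℝ × ℝ := fun n => Nat.rec (u₀, v₀)
    (fun k s => (s.1 + (((sg s.2 : ℤˣ) : ℤ) : ℝ) * P k,
      s.2 + (((sg s.2 : ℤˣ) : ℤ) : ℝ) * (P k * W k))) n
  set u : ℕ → ℝ := fun n => (run n).1 with hu
  set v : ℕ → ℝ := fun n => (run n).2 with hv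
  have hus : ∀ k, u (k + 1) = u k + (((sg (v k) : ℤˣ) : ℤ) : ℝ) * P k := fun k => rfl
  have hvs : ∀ k, v (k + 1) = v k + (((sg (v k) : ℤˣ) : ℤ) : ℝ) * (P k * W k) := fun k => rfl
  have hu0 : u 0 = u₀ := rfl
  have hv0 : v 0 = v₀ := rfl
  obtain ⟨k₁, Y, hY, hk₁⟩ := phase_one_bdd P W hP hW hWa.antitone hQ2 hQs hsum u v hus hvs
  set M : ℝ := Y / c + Y + P 0 + 1 with hM
  have hP00 := (hP 0).le
  have hYc : 0 ≤ Y / c := by positivity
  have hM0 : 0 ≤ M := by positivity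
  have h2pow : Tendsto (fun m : ℕ => 2 ^ m) atTop atTop :=
    tendsto_pow_atTop_atTop_of_one_lt (by norm_num)
  have hPlim : Tendsto (fun m : ℕ => P (2 ^ m)) atTop (𝓝 0) := hP0.comp h2pow
  have hθlim : Tendsto (fun m => C * P (2 ^ m) + (2 * M + P 0) ^ 2 *
      (δ m / ((W (2 ^ (m + 1)) - W (2 ^ (m + 2))) * P (2 ^ (m + 1))))) atTop (𝓝 0) := by
    have h1 := (hPlim.const_mul C).add (hR2.const_mul ((2 * M + P 0) ^ 2))
    simpa using h1
  have e1 : ∀ᶠ m in atTop, C * P (2 ^ m) + (2 * M + P 0) ^ 2 *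
      (δ m / ((W (2 ^ (m + 1)) - W (2 ^ (m + 2))) * P (2 ^ (m + 1)))) ≤ M := by
    filter_upwards [hθlim.eventually (gt_mem_nhds (show (0 : ℝ) < M by positivity))] with m hm
    exact hm.le
  have e2 : ∀ᶠ m : ℕ in atTop, 2 * M + P 0 ≤ (2 : ℝ) ^ m * P (2 ^ (m + 1)) :=
    hR3.eventually (eventually_ge_atTop _)
  have e3 : ∀ᶠ m : ℕ in atTop, k₁ + 1 ≤ 2 ^ m := h2pow.eventually (eventually_ge_atTop _)
  obtain ⟨m₀, hm₀⟩ := eventually_atTop.1 (e1.and (e2.and e3))
  have hK := (hm₀ m₀ le_rfl).2.2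
  obtain ⟨K', hK'⟩ : ∃ K', 2 ^ m₀ = K' + 1 := ⟨2 ^ m₀ - 1, by omega⟩
  have hvK : |v (2 ^ m₀)| ≤ 2 * (P (2 ^ m₀) * W (2 ^ m₀)) := by
    rw [hK']
    exact (hk₁ K' (by omega)).1.trans (hQ2 K')
  have hyK : |u (2 ^ m₀) - v (2 ^ m₀) / W (2 ^ m₀)| ≤ Y := (hk₁ (2 ^ m₀) (by omega)).2
  have hWK := hW (2 ^ m₀)
  have hPK := hP (2 ^ m₀)
  have hT0 : |v (2 ^ m₀) - W (2 ^ m₀) * u (2 ^ m₀)| ≤
      M * (W (2 ^ m₀) - W (2 ^ (m₀ + 1))) := by
    have h1 : v (2 ^ m₀) - W (2 ^ m₀) * u (2 ^ m₀) =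
        -(W (2 ^ m₀) * (u (2 ^ m₀) - v (2 ^ m₀) / W (2 ^ m₀))) := by
      field_simp
      ring
    rw [h1, abs_neg, abs_mul, abs_of_pos hWK]
    have h2 := hcW m₀
    have h3 : Y / c * (c * W (2 ^ m₀)) = Y * W (2 ^ m₀) := by field_simp
    have h4 : Y / c * (c * W (2 ^ m₀)) ≤ M * (W (2 ^ m₀) - W (2 ^ (m₀ + 1))) := by
      have : Y / c ≤ M := by simp only [hM]; linarith
      have : 0 ≤ c * W (2 ^ m₀) := by positivity
      gcongr
    calc W (2 ^ m₀) * |u (2 ^ m₀) - v (2 ^ m₀) / W (2 ^ m₀)| ≤ W (2 ^ m₀) * Y := by gcongr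
      _ = Y / c * (c * W (2 ^ m₀)) := by rw [h3]; ring
      _ ≤ _ := h4
  have huK : |u (2 ^ m₀)| ≤ M + P 0 := by
    have h1 := abs_add_le (u (2 ^ m₀) - v (2 ^ m₀) / W (2 ^ m₀)) (v (2 ^ m₀) / W (2 ^ m₀))
    rw [sub_add_cancel] at h1
    have h2 : |v (2 ^ m₀) / W (2 ^ m₀)| ≤ 2 * P (2 ^ m₀) := by
      rw [abs_div, abs_of_pos hWK, div_le_iff₀ hWK]
      linarith
    have h3 : P (2 ^ m₀) ≤ P 0 := hPa (Nat.zero_le _)
    simp only [hM]
    linarith
  obtain ⟨ε', h1, h2⟩ := phase_two P W δ C hC hP hPa hP0 hW hWa hδ hR1 hR2 m₀ _ _ M hM0 hT0 huK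
    (fun m hm => (hm₀ m hm).1) (fun m hm => (hm₀ m hm).2.1)
  refine ⟨fun k => if k < 2 ^ m₀ then sg (v k) else ε' (k - 2 ^ m₀), ?_, ?_⟩
  · rw [← tendsto_add_atTop_iff_nat (2 ^ m₀)]
    have h3 : ∀ n, n ≤ 2 ^ m₀ → u₀ + ∑ i ∈ Finset.range n,
        (((if i < 2 ^ m₀ then sg (v i) else ε' (i - 2 ^ m₀) : ℤˣ) : ℤ) : ℝ) * P i = u n := by
      intro n
      induction n with
      | zero => intro _; simp [hu0]
      | succ n ih =>
        intro hn
        rw [Finset.sum_range_succ, ← add_assoc, ih (by omega), if_pos (by omega), hus]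
    refine h1.congr fun n => ?_
    rw [add_comm n, Finset.sum_range_add, ← add_assoc, h3 _ le_rfl]
    congr 1
    apply Finset.sum_congr rfl
    intro i _
    dsimp only
    rw [if_neg (by omega), Nat.add_sub_cancel_left]
  · rw [← tendsto_add_atTop_iff_nat (2 ^ m₀)]
    have h3 : ∀ n, n ≤ 2 ^ m₀ → v₀ + ∑ i ∈ Finset.range n,
        (((if i < 2 ^ m₀ then sg (v i) else ε' (i - 2 ^ m₀) : ℤˣ) : ℤ) : ℝ) * (P i * W i)
          = v n := by
      intro n
      induction n with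
      | zero => intro _; simp [hv0]
      | succ n ih =>
        intro hn
        rw [Finset.sum_range_succ, ← add_assoc, ih (by omega), if_pos (by omega), hvs]
    refine h2.congr fun n => ?_
    rw [add_comm n, Finset.sum_range_add, ← add_assoc, h3 _ le_rfl]
    congr 1
    apply Finset.sum_congr rfl
    intro i _
    dsimp only
    rw [if_neg (by omega), Nat.add_sub_cancel_left]

section rpow

variable {β : ℝ}

lemma base_pos (k : ℕ) : (0 : ℝ) < (k : ℝ) + 1 := by positivity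

lemma rp_pos (a : ℝ) (k : ℕ) : 0 < ((k : ℝ) + 1) ^ (-a) := Real.rpow_pos_of_pos (base_pos k) _

lemma rp_strictAnti {a : ℝ} (ha : 0 < a) : StrictAnti (fun k : ℕ => ((k : ℝ) + 1) ^ (-a)) := by
  intro i j hij
  apply Real.rpow_lt_rpow_of_neg (base_pos i)
  · have : (i : ℝ) < j := by exact_mod_cast hij
    linarith
  · linarith

lemma rp_tendsto {a : ℝ} (ha : 0 < a) :
    Tendsto (fun k : ℕ => ((k : ℝ) + 1) ^ (-a)) atTop (𝓝 0) := by
  have h1 := tendsto_rpow_neg_atTop ha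
  refine h1.comp ?_
  exact tendsto_atTop_add_const_right _ _ tendsto_natCast_atTop_atTop

/-- doubling the base costs at most a factor two -/
lemma rp_double {a : ℝ} (ha : 0 ≤ a) (ha1 : a ≤ 1) {x y : ℝ} (hx : 0 < x) (hy : 0 < y)
    (hxy : y ≤ 2 * x) : x ^ (-a) ≤ 2 * y ^ (-a) := by
  have h1 : (2 * x) ^ (-a) ≤ y ^ (-a) := Real.rpow_le_rpow_of_nonpos hy hxy (by linarith)
  rw [Real.mul_rpow (by norm_num) hx.le] at h1
  have h2 : (1 : ℝ) / 2 ≤ (2 : ℝ) ^ (-a) := by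
    have : (2 : ℝ) ^ (-1 : ℝ) ≤ (2 : ℝ) ^ (-a) :=
      Real.rpow_le_rpow_of_exponent_le (by norm_num) (by linarith)
    rw [Real.rpow_neg_one] at this
    linarith
  have h3 : 0 < x ^ (-a) := Real.rpow_pos_of_pos hx _
  nlinarith

lemma not_summable_rp {a : ℝ} (ha1 : a ≤ 1) :
    ¬ Summable (fun k : ℕ => ((k : ℝ) + 1) ^ (-a)) := by
  intro h
  have h2 : Summable (fun k : ℕ => (k : ℝ) ^ (-a)) := by
    rw [← summable_nat_add_iff 1]
    refine h.congr fun k => ?_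
    push_cast
    rfl
  rw [Real.summable_nat_rpow] at h2
  linarith

/-- Bernoulli -/
lemma rp_step {b : ℝ} (hb : 0 ≤ b) (hb1 : b ≤ 1) {x : ℝ} (hx : 0 < x) :
    (x + 1) ^ b - x ^ b ≤ x ^ b / x := by
  have h1 : (1 + 1 / x) ^ b ≤ 1 + b * (1 / x) :=
    rpow_one_add_le_one_add_mul_self (by have : 0 < 1 / x := by positivity
                                         linarith) hb hb1
  have h2 : x + 1 = x * (1 + 1 / x) := by field_simp
  have h3 : 0 < x ^ b := Real.rpow_pos_of_pos hx _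
  rw [h2, Real.mul_rpow hx.le (by positivity)]
  have h4 : b * (1 / x) ≤ 1 / x := by
    have : 0 < 1 / x := by positivity
    nlinarith
  calc x ^ b * (1 + 1 / x) ^ b - x ^ b ≤ x ^ b * (1 + 1 / x) - x ^ b := by
        gcongr
        linarith
    _ = x ^ b / x := by ring

lemma rp_step_neg {b : ℝ} (hb : 0 ≤ b) (hb1 : b ≤ 1) {x : ℝ} (hx : 0 < x) :
    x ^ (-b) - (x + 1) ^ (-b) ≤ x ^ (-b) / x := by
  have h0 : 0 < x ^ b := Real.rpow_pos_of_pos hx _
  have h0' : 0 < (x + 1) ^ b := Real.rpow_pos_of_pos (by linarith) _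
  have h1 := rp_step hb hb1 hx
  have h2 : x ^ b ≤ (x + 1) ^ b := Real.rpow_le_rpow hx.le (by linarith) hb
  rw [Real.rpow_neg hx.le, Real.rpow_neg (by linarith)]
  have h3 : (x ^ b)⁻¹ - ((x + 1) ^ b)⁻¹ = ((x + 1) ^ b - x ^ b) / (x ^ b * (x + 1) ^ b) := by
    field_simp
  rw [h3, div_le_div_iff₀ (by positivity) hx]
  have h4 : ((x + 1) ^ b - x ^ b) * x ≤ x ^ b := by
    have := mul_le_mul_of_nonneg_right h1 hx.le
    rwa [div_mul_cancel₀ _ hx.ne'] at this
  calc ((x + 1) ^ b - x ^ b) * x ≤ x ^ b := h4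
    _ ≤ (x + 1) ^ b := h2
    _ = (x ^ b)⁻¹ * (x ^ b * (x + 1) ^ b) := by field_simp

end rpow

lemma signs_of_lt (α₁ α₂ : ℝ) (h1 : 0 < α₁) (h12 : α₁ < α₂) (h2 : α₂ ≤ 1) (u₀ v₀ : ℝ) :
    ∃ ε : ℕ → ℤˣ, Tendsto (fun n => u₀ + ∑ i ∈ Finset.range n,
        ((ε i : ℤ) : ℝ) * ((i : ℝ) + 1) ^ (-α₁)) atTop (𝓝 0) ∧
      Tendsto (fun n => v₀ + ∑ i ∈ Finset.range n, ((ε i : ℤ) : ℝ) *
        ((i : ℝ) + 1) ^ (-α₂)) atTop (𝓝 0) := by
  set β : ℝ := α₂ - α₁ with hβ
  have hβ0 : 0 < β := by linarith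
  have hβ1 : β ≤ 1 := by linarith
  set P : ℕ → ℝ := fun k => ((k : ℝ) + 1) ^ (-α₁) with hP
  set W : ℕ → ℝ := fun k => ((k : ℝ) + 1) ^ (-β) with hW
  have hPW : ∀ k, P k * W k = ((k : ℝ) + 1) ^ (-α₂) := by
    intro k
    simp only [hP, hW]
    rw [← Real.rpow_add (base_pos k)]
    congr 1
    simp only [hβ]
    ring
  have hPpos : ∀ k, 0 < P k := fun k => rp_pos _ k
  have hWpos : ∀ k, 0 < W k := fun k => rp_pos _ k
  have hPanti : Antitone P := (rp_strictAnti h1).antitone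
  have hWanti : StrictAnti W := rp_strictAnti hβ0
  have hPlim : Tendsto P atTop (𝓝 0) := rp_tendsto h1
  have hQ2 : ∀ k, P k * W k ≤ 2 * (P (k + 1) * W (k + 1)) := by
    intro k
    rw [hPW, hPW]
    apply rp_double (by linarith) h2 (base_pos k) (base_pos _)
    push_cast
    linarith [(Nat.cast_nonneg k : (0 : ℝ) ≤ k)]
  have hQs : ¬ Summable (fun k => P k * W k) := by
    simp_rw [hPW]
    exact not_summable_rp h2
  have hinvW : ∀ k, 1 / W k = ((k : ℝ) + 1) ^ β := by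
    intro k
    simp only [hW]
    rw [Real.rpow_neg (base_pos k).le, one_div, inv_inv]
  have hsum : Summable (fun k => P k * W k * (1 / W (k + 1) - 1 / W k)) := by
    have h3 : Summable (fun k : ℕ => ((k : ℝ) + 1) ^ (-α₁ - 1)) := by
      have h4 : Summable (fun k : ℕ => (k : ℝ) ^ (-α₁ - 1)) := by
        rw [Real.summable_nat_rpow]
        linarith
      rw [← summable_nat_add_iff 1] at h4
      refine h4.congr fun k => ?_
      push_cast
      rfl
    refine Summable.of_nonneg_of_le (fun k => ?_) (fun k => ?_) h3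
    · have := hPpos k
      have := hWpos k
      have : 1 / W k ≤ 1 / W (k + 1) :=
        one_div_le_one_div_of_le (hWpos _) (hWanti.antitone (Nat.le_succ k))
      have : 0 ≤ 1 / W (k + 1) - 1 / W k := by linarith
      positivity
    · rw [hinvW, hinvW]
      have h5 := rp_step hβ0.le hβ1 (base_pos k)
      push_cast
      have h6 : P k * W k * (((k : ℝ) + 1 + 1) ^ β - ((k : ℝ) + 1) ^ β) ≤
          P k * W k * (((k : ℝ) + 1) ^ β / ((k : ℝ) + 1)) := by
        have := hPpos k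
        have := hWpos k
        gcongr
      refine h6.trans (le_of_eq ?_)
      have h7 : W k * ((k : ℝ) + 1) ^ β = 1 := by
        rw [← hinvW k]
        field_simp [(hWpos k).ne']
      calc P k * W k * (((k : ℝ) + 1) ^ β / ((k : ℝ) + 1))
          = P k * (W k * ((k : ℝ) + 1) ^ β) / ((k : ℝ) + 1) := by ring
        _ = P k / ((k : ℝ) + 1) := by rw [h7, mul_one]
        _ = ((k : ℝ) + 1) ^ (-α₁ - 1) := by
          simp only [hP]
          rw [Real.rpow_sub_one (base_pos k).ne']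
  set c : ℝ := 1 - (3 / 2 : ℝ) ^ (-β) with hc
  have hc0 : 0 < c := by
    have : (3 / 2 : ℝ) ^ (-β) < 1 := Real.rpow_lt_one_of_one_lt_of_neg (by norm_num) (by linarith)
    linarith
  have hc1 : ∀ N : ℕ, 1 ≤ N → c * W N ≤ W N - W (2 * N) := by
    intro N hN
    have hN' : (1 : ℝ) ≤ N := by exact_mod_cast hN
    have h3 : W (2 * N) ≤ (3 / 2 : ℝ) ^ (-β) * W N := by
      simp only [hW]
      rw [← Real.mul_rpow (by norm_num) (base_pos N).le]
      apply Real.rpow_le_rpow_of_nonpos (by positivity)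
      · push_cast
        linarith
      · linarith
    simp only [hc]
    nlinarith
  have hcW : ∀ m, c * W (2 ^ m) ≤ W (2 ^ m) - W (2 ^ (m + 1)) := by
    intro m
    have := hc1 (2 ^ m) Nat.one_le_two_pow
    rwa [pow_succ, mul_comm (2 ^ m) 2]
  have hWdouble : ∀ m, W (2 ^ m) ≤ 2 * W (2 ^ (m + 1)) := by
    intro m
    simp only [hW]
    apply rp_double hβ0.le hβ1 (base_pos _) (base_pos _)
    push_cast
    rw [pow_succ]
    linarith
  have hPdouble : ∀ m, P (2 ^ m) ≤ 2 * P (2 ^ (m + 1)) := by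
    intro m
    simp only [hP]
    apply rp_double h1.le (by linarith) (base_pos _) (base_pos _)
    push_cast
    rw [pow_succ]
    linarith
  have hR1 : ∀ m, W (2 ^ m) - W (2 ^ (m + 1)) ≤
      (2 / c) * (W (2 ^ (m + 1)) - W (2 ^ (m + 2))) := by
    intro m
    have h3 := hcW (m + 1)
    have h4 := hWdouble m
    have h5 := hWpos (2 ^ (m + 1))
    calc W (2 ^ m) - W (2 ^ (m + 1)) ≤ 2 * W (2 ^ (m + 1)) := by linarith
      _ = (2 / c) * (c * W (2 ^ (m + 1))) := by field_simp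
      _ ≤ _ := by gcongr
  have hδ : ∀ m k, 2 ^ m ≤ k → W k - W (k + 1) ≤
      W (2 ^ m) / ((((2 ^ m : ℕ) : ℝ)) + 1) := by
    intro m k hk
    have h3 := rp_step_neg hβ0.le hβ1 (base_pos k)
    have h4 : W (k + 1) = ((k : ℝ) + 1 + 1) ^ (-β) := by
      simp only [hW]
      push_cast
      rfl
    rw [h4]
    refine h3.trans ?_
    have h5 : W k ≤ W (2 ^ m) := hWanti.antitone hk
    have h6 : (((2 ^ m : ℕ) : ℝ)) ≤ k := by exact_mod_cast hk
    have h7 := hWpos (2 ^ m)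
    change W k / ((k : ℝ) + 1) ≤ _
    gcongr
  have h2pow : Tendsto (fun m : ℕ => 2 ^ m) atTop atTop :=
    tendsto_pow_atTop_atTop_of_one_lt (by norm_num)
  have hbase : Tendsto (fun m : ℕ => (((2 ^ m : ℕ) : ℝ) + 1)) atTop atTop :=
    tendsto_atTop_add_const_right _ _ (tendsto_natCast_atTop_atTop.comp h2pow)
  have hgrow : Tendsto (fun m : ℕ => (((2 ^ m : ℕ) : ℝ) + 1) * P (2 ^ m)) atTop atTop := by
    have h3 := (tendsto_rpow_atTop (show 0 < 1 - α₁ by linarith)).comp hbase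
    refine h3.congr fun m => ?_
    simp only [Function.comp, hP]
    rw [sub_eq_add_neg, Real.rpow_add (base_pos _), Real.rpow_one]
  have hR2 : Tendsto (fun m => W (2 ^ m) / ((((2 ^ m : ℕ) : ℝ)) + 1) /
      ((W (2 ^ (m + 1)) - W (2 ^ (m + 2))) * P (2 ^ (m + 1)))) atTop (𝓝 0) := by
    have h3 : Tendsto (fun m : ℕ => (4 / c) * ((((2 ^ m : ℕ) : ℝ) + 1) * P (2 ^ m))⁻¹)
        atTop (𝓝 0) := by
      simpa using (tendsto_inv_atTop_zero.comp hgrow).const_mul (4 / c)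
    refine squeeze_zero (fun m => ?_) (fun m => ?_) h3
    · have := hWpos (2 ^ m)
      have := hPpos (2 ^ (m + 1))
      have h4 := hcW (m + 1)
      have h5 := hWpos (2 ^ (m + 1))
      have : 0 ≤ W (2 ^ (m + 1)) - W (2 ^ (m + 2)) := by
        have : 0 < c * W (2 ^ (m + 1)) := by positivity
        linarith
      positivity
    · have h6 := hWpos (2 ^ m)
      have h7 := hPpos (2 ^ (m + 1))
      have h4 := hcW (m + 1)
      have h5 := hWpos (2 ^ (m + 1))
      have h8 := hPdouble m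
      have h9 := hWdouble m
      have h10 := hPpos (2 ^ m)
      have h11 : c / 4 * (W (2 ^ m) * P (2 ^ m)) ≤
          (W (2 ^ (m + 1)) - W (2 ^ (m + 2))) * P (2 ^ (m + 1)) := by
        calc c / 4 * (W (2 ^ m) * P (2 ^ m)) ≤
            c / 4 * ((2 * W (2 ^ (m + 1))) * (2 * P (2 ^ (m + 1)))) := by gcongr
          _ = (c * W (2 ^ (m + 1))) * P (2 ^ (m + 1)) := by ring
          _ ≤ _ := by gcongr
      have h12 : 0 < c / 4 * (W (2 ^ m) * P (2 ^ m)) := by positivity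
      calc W (2 ^ m) / ((((2 ^ m : ℕ) : ℝ)) + 1) /
          ((W (2 ^ (m + 1)) - W (2 ^ (m + 2))) * P (2 ^ (m + 1)))
          ≤ W (2 ^ m) / ((((2 ^ m : ℕ) : ℝ)) + 1) / (c / 4 * (W (2 ^ m) * P (2 ^ m))) := by
            gcongr
        _ = (4 / c) * ((((2 ^ m : ℕ) : ℝ) + 1) * P (2 ^ m))⁻¹ := by
            field_simp
  have hR3 : Tendsto (fun m : ℕ => (2 : ℝ) ^ m * P (2 ^ (m + 1))) atTop atTop := by
    refine tendsto_atTop_mono (fun m => ?_) (hgrow.const_mul_atTop (show (0 : ℝ) < 1 / 4 by norm_num))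
    have h8 := hPdouble m
    have h10 := hPpos (2 ^ m)
    have h11 : (((2 ^ m : ℕ) : ℝ)) + 1 ≤ 2 * 2 ^ m := by
      push_cast
      have : (1 : ℝ) ≤ 2 ^ m := one_le_pow₀ (by norm_num)
      linarith
    calc 1 / 4 * ((((2 ^ m : ℕ) : ℝ) + 1) * P (2 ^ m)) ≤
        1 / 4 * ((2 * 2 ^ m) * (2 * P (2 ^ (m + 1)))) := by gcongr
      _ = (2 : ℝ) ^ m * P (2 ^ (m + 1)) := by ring
  obtain ⟨ε, hε1, hε2⟩ := two_phase P W (fun m => W (2 ^ m) / ((((2 ^ m : ℕ) : ℝ)) + 1)) (2 / c) c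
    (by positivity) hc0 hPpos hPanti hPlim hWpos hWanti hQ2 hQs hsum hcW hδ hR1 hR2 hR3 u₀ v₀
  refine ⟨ε, hε1, ?_⟩
  simp_rw [hPW] at hε2
  exact hε2

end

end Pool.Agent.Lib.MP035d7c
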